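import Pool.Agent.D0H54.NS.Stm

set_option autoImplicit false

/-!
# Project NS, module COVER
-/

namespace Pool.Agent.D0H92.NS

open Finset Pool.Agent.D0H54.NS

lemma exists_window (ρ L₀ x : ℝ) (hρ : 1 < ρ) (hL : 0 < L₀) (hx : L₀ ≤ x) :
    ∃ k : ℕ, ρ ^ k * L₀ ≤ x ∧ x ≤ ρ * (ρ ^ k * L₀) ∧ (k : ℝ) ≤ (Real.log x - Real.log L₀) / Real.log ρ := by
  have hlρ : 0 < Real.log ρ := Real.log_pos hρ
  have hx0 : 0 < x := by linarith
  have hq1 : 1 ≤ x / L₀ := (one_le_div hL).2 hx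
  have hlq : 0 ≤ Real.log (x / L₀) := Real.log_nonneg hq1
  obtain ⟨u, hu⟩ : ∃ u : ℝ, u = Real.log (x / L₀) / Real.log ρ := ⟨_, rfl⟩
  have hu0 : 0 ≤ u := by rw [hu]; positivity
  have hul : u * Real.log ρ = Real.log (x / L₀) := by rw [hu]; field_simp
  have h1 := Nat.floor_le hu0
  have h2 := Nat.lt_floor_add_one u
  have hρ0 : 0 < ρ := by linarith
  refine ⟨⌊u⌋₊, ?_, ?_, ?_⟩
  · have h3 : ρ ^ ⌊u⌋₊ ≤ x / L₀ := by
      rw [← Real.log_le_log_iff (by positivity) (by positivity), Real.log_pow, ← hul]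
      exact mul_le_mul_of_nonneg_right h1 hlρ.le
    rwa [le_div_iff₀ hL] at h3
  · have h3 : x / L₀ ≤ ρ ^ (⌊u⌋₊ + 1) := by
      rw [← Real.log_le_log_iff (by positivity) (by positivity), Real.log_pow, ← hul]
      push_cast
      exact mul_le_mul_of_nonneg_right h2.le hlρ.le
    rw [div_le_iff₀ hL] at h3
    refine h3.trans (le_of_eq ?_)
    rw [pow_succ]; ring
  · rw [← Real.log_div hx0.ne' hL.ne', ← hu]
    exact h1

open Classical in
theorem t_COVER : S_COVER := by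
  intro V _ _ _ ρ H₀ K D hρ hH₀ hD
  have hlρ : 0 < Real.log ρ := Real.log_pos hρ
  have hρ0 : 0 < ρ := by linarith
  obtain ⟨L₀, hL₀⟩ : ∃ L₀ : ℝ, L₀ = Real.log H₀ := ⟨_, rfl⟩
  have hL0 : 0 < L₀ := by rw [hL₀]; exact Real.log_pos (by linarith)
  have hH0 : 0 < H₀ := by linarith
  refine ⟨|Real.log L₀| / Real.log ρ + 1 + K, ?_⟩
  intro S ht F hF hS hrank Y hY
  obtain ⟨ℓ, hℓ⟩ : ∃ ℓ : ℝ, ℓ = Real.log (Real.log Y) := ⟨_, rfl⟩
  have hlY : 1 ≤ Real.log Y := by
    rw [Real.le_log_iff_exp_le (by linarith)]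
    have := Real.exp_one_lt_d9
    linarith
  have hℓ0 : 0 ≤ ℓ := by rw [hℓ]; exact Real.log_nonneg hlY
  obtain ⟨M, hM⟩ : ∃ M : ℕ, M = ⌊ℓ / Real.log ρ + |Real.log L₀| / Real.log ρ⌋₊ := ⟨_, rfl⟩
  have hs0 : 0 ≤ ℓ / Real.log ρ + |Real.log L₀| / Real.log ρ := by positivity
  have hMle : (M : ℝ) ≤ ℓ / Real.log ρ + |Real.log L₀| / Real.log ρ := by rw [hM]; exact Nat.floor_le hs0
  let win : ℕ → Submodule ℚ V := fun k =>
    Submodule.span ℚ {v : V | v ∈ S ∧ Real.exp (ρ ^ k * L₀) ≤ ht v ∧ ht v ≤ Real.exp (ρ ^ k * L₀) ^ ρ}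
  refine ⟨(range (M + 1)).image win ∪ F.image fun v => Submodule.span ℚ {v}, ?_, ?_, ?_⟩
  · have h1 : ((range (M + 1)).image win ∪ F.image fun v => Submodule.span ℚ {v}).card ≤ (M + 1) + K := by
      refine (card_union_le _ _).trans (Nat.add_le_add ?_ (card_image_le.trans hF))
      exact card_image_le.trans (by rw [card_range])
    have h2 : (((range (M + 1)).image win ∪ F.image fun v => Submodule.span ℚ {v}).card : ℝ) ≤ (M + 1) + K := by
      exact_mod_cast h1
    rw [← hℓ]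
    linarith
  · intro W hW
    rcases mem_union.1 hW with h | h
    · obtain ⟨k, -, rfl⟩ := mem_image.1 h
      apply hrank
      have h1 : (1 : ℝ) ≤ ρ ^ k := one_le_pow₀ hρ.le
      have h2 : Real.exp L₀ = H₀ := by rw [hL₀]; exact Real.exp_log hH0
      rw [← h2]
      apply Real.exp_le_exp.2
      nlinarith
    · obtain ⟨v, -, rfl⟩ := mem_image.1 h
      have h1 := finrank_span_finset_le_card (R := ℚ) ({v} : Finset V)
      rw [coe_singleton, card_singleton] at h1
      exact h1.trans hD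
  · intro v hv hvY
    by_cases hlt : ht v < H₀
    · refine ⟨Submodule.span ℚ {v}, mem_union_right _ (mem_image.2 ⟨v, hS v hv hlt, rfl⟩), ?_⟩
      exact Submodule.mem_span_singleton_self v
    · push Not at hlt
      have hv0 : 0 < ht v := by linarith
      have hxL : L₀ ≤ Real.log (ht v) := by rw [hL₀]; exact Real.log_le_log hH0 hlt
      have hx0 : 0 < Real.log (ht v) := by linarith
      obtain ⟨k, h1, h2, h3⟩ := exists_window ρ L₀ (Real.log (ht v)) hρ hL0 hxL
      have hk : k ∈ range (M + 1) := by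
        rw [mem_range, Nat.lt_succ_iff, hM]
        apply Nat.le_floor
        refine h3.trans ?_
        rw [← add_div]
        apply div_le_div_of_nonneg_right _ hlρ.le
        have h4 : Real.log (Real.log (ht v)) ≤ ℓ := by
          rw [hℓ]
          exact Real.log_le_log hx0 (Real.log_le_log hv0 hvY)
        have h5 := neg_abs_le (Real.log L₀)
        linarith
      refine ⟨win k, mem_union_left _ (mem_image_of_mem _ hk), Submodule.subset_span ⟨hv, ?_, ?_⟩⟩
      · rw [← Real.le_log_iff_exp_le hv0]; exact h1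
      · rw [← Real.exp_mul, ← Real.log_le_iff_le_exp hv0]
        rw [mul_comm]
        exact h2

end Pool.Agent.D0H92.NS
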